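import Pool.Agent.H444Z.BF.Final

set_option autoImplicit false

namespace Pool.Agent.Results.MP_885716_pr.ThreeBlockFactor

open MeasureTheory Pool.Agent.H444Z.BF

/-- The process `W = ι(X)` is a 3-block factor of an i.i.d. process: there are a probability
space `(E, ν)` and a measurable `f` on `E ^ 3` such that, for `U` i.i.d. with law `ν`, the process
`f (U i, U (i+1), U (i+2))` gives every word `w`, at every position, the probability
`∑ B(x) / Z(n)` over the words `x` with `ι(x) = w`; hence its law is the image under `ι` of the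
law of the 1-dependent 4-coloring. -/
theorem result :
    ∃ (E : Type) (_ : MeasurableSpace E) (ν : Measure E) (_ : IsProbabilityMeasure ν)
      (f : (Fin 3 → E) → Fin 3), Measurable f ∧
      (∀ (i : ℤ) (n : ℕ) (w : Fin n → Fin 3),
        Measure.infinitePi (fun _ : ℤ => ν)
            {u | ∀ j : Fin n, f (fun k : Fin 3 => u (i + (j : ℕ) + (k : ℕ))) = w j} =
          ∑ x ∈ Finset.univ.filter (fun x : Fin n → Fin 4 => ∀ j, iota (x j) = w j),
            (bld n x : ENNReal) / (total n : ENNReal)) ∧
      ∀ μ : Measure (ℤ → Fin 4), IsProbabilityMeasure μ →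
        (∀ (i : ℤ) (n : ℕ) (x : Fin n → Fin 4),
          μ {ω | ∀ j : Fin n, ω (i + (j : ℕ)) = x j} =
            (bld n x : ENNReal) / (total n : ENNReal)) →
        μ.map (fun ω (i : ℤ) => iota (ω i)) =
          (Measure.infinitePi (fun _ : ℤ => ν)).map
            (fun u (i : ℤ) => f (fun k : Fin 3 => u (i + (k : ℕ)))) :=
  ⟨E, inferInstance, nu, inferInstance, f3, meas_f3, cyl, fun μ _ hμ => law_eq μ hμ⟩

end Pool.Agent.Results.MP_885716_pr.ThreeBlockFactor
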